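import Pool.Agent.Helper64.IG.Goals

/-!
# MP_d01c92_ag, packet RK1: combinatorial rank = linear rank
-/

open scoped BigOperators

universe u v

namespace Pool.Agent.Helper64.IG.PkRK1

open Module

variable {K : Type u} [Field K]

/-- The determinant of a family is nonzero iff the family is independent. -/
theorem det_ne_zero_iff {I : Type*} {p : ℕ} (v : I → Fin p → K) (a : Fin p → I) :
    Matrix.det (fun i j => v (a j) i) ≠ 0 ↔ LinearIndependent K (fun j => v (a j)) := by
  have h := Matrix.linearIndependent_cols_iff_isUnit (A := (Matrix.of fun i j => v (a j) i))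
  have e : (Matrix.of fun i j => v (a j) i).col = fun j => v (a j) := rfl
  rw [e] at h
  rw [h, Matrix.isUnit_iff_isUnit_det, isUnit_iff_ne_zero]
  exact Iff.rfl

/-- For an independent subfamily the number of members equals the dimension. -/
theorem finrank_eq_card {I : Type*} [Fintype I] {p : ℕ} (v : I → Fin p → K) (A : Set I)
    [Fintype A] (h : LinearIndepOn K v A) :
    finrank K (Submodule.span K (v '' A)) = Fintype.card A := by
  have h1 : LinearIndependent K (fun x : A => v x) := h
  have h2 := finrank_span_eq_card h1
  have e : Set.range (fun x : A => v x) = v '' A := by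
    ext y
    constructor
    · rintro ⟨x, rfl⟩
      exact ⟨x, x.2, rfl⟩
    · rintro ⟨x, hx, rfl⟩
      exact ⟨⟨x, hx⟩, rfl⟩
  rw [e] at h2
  exact h2

theorem rk1 : G_RK1.{u} := by
  classical
  intro K _ n p ω c v hω hne X
  -- some coordinate does not vanish
  obtain ⟨a0, ha0⟩ : ∃ a, ω a ≠ 0 := by
    by_contra h
    push Not at h
    exact hne (funext h)
  have hc : c ≠ 0 := by
    intro h
    apply ha0
    rw [hω, h, zero_mul]
  have hiff : ∀ a, ω a ≠ 0 ↔ LinearIndependent K (fun j => v (a j)) := by
    intro a
    rw [hω a, ← det_ne_zero_iff]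
    constructor
    · exact fun h => right_ne_zero_of_mul h
    · exact fun h => mul_ne_zero hc h
  apply le_antisymm
  · unfold rk
    apply Finset.sup_le
    intro a ha
    have ha' : ω a ≠ 0 := by
      simpa using ha
    have hli := (hiff a).mp ha'
    have hsub : LinearIndependent K (fun j : {j : Fin p // a j ∈ X} => v (a j.1)) :=
      hli.comp (fun j : {j : Fin p // a j ∈ X} => j.1) Subtype.val_injective
    have h1 := finrank_span_eq_card hsub
    have h2 : Submodule.span K (Set.range fun j : {j : Fin p // a j ∈ X} => v (a j.1)) ≤
        Submodule.span K (v '' (X : Set (Ix n p))) := by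
      apply Submodule.span_mono
      rintro _ ⟨j, rfl⟩
      exact ⟨a j.1, j.2, rfl⟩
    have h3 := Submodule.finrank_mono h2
    rw [h1] at h3
    refine le_trans (le_of_eq ?_) h3
    rw [Fintype.card_subtype]
  · obtain ⟨A, hAX, -, hA2, hA3⟩ := exists_linearIndepOn_extension (K := K) (v := v)
      (linearIndepOn_empty K v) (Set.empty_subset (X : Set (Ix n p)))
    obtain ⟨B, -, hAB, hB2, hB3⟩ := exists_linearIndepOn_extension (K := K) (v := v)
      hA3 (Set.subset_univ A)
    -- the dimension of the span of `B` is `p`
    have hBtop : Submodule.span K (v '' B) = ⊤ := by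
      rw [eq_top_iff]
      have h1 := (hiff a0).mp ha0
      have h2 : Submodule.span K (Set.range fun j => v (a0 j)) = ⊤ := by
        apply Submodule.eq_top_of_finrank_eq
        rw [finrank_span_eq_card h1]
        simp
      rw [← h2, Submodule.span_le]
      rintro _ ⟨j, rfl⟩
      exact hB2 ⟨a0 j, Set.mem_univ _, rfl⟩
    have hcardB : Fintype.card B = p := by
      rw [← finrank_eq_card v B hB3, hBtop]
      simp
    have hcardA : finrank K (Submodule.span K (v '' (X : Set (Ix n p)))) = Fintype.card A := by
      have hspan : Submodule.span K (v '' (X : Set (Ix n p))) = Submodule.span K (v '' A) := by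
        apply le_antisymm
        · rw [Submodule.span_le]
          exact hA2
        · exact Submodule.span_mono (Set.image_mono hAX)
      rw [hspan, finrank_eq_card v A hA3]
    obtain ⟨e⟩ : Nonempty (Fin p ≃ B) :=
      ⟨(Fintype.equivFinOfCardEq hcardB).symm⟩
    let a : Fin p → Ix n p := fun j => (e j : Ix n p)
    have hli : LinearIndependent K (fun j => v (a j)) := by
      have h1 : LinearIndependent K (fun x : B => v x) := hB3
      exact h1.comp e e.injective
    have hωa := (hiff a).mpr hli
    rw [hcardA]
    unfold rk
    have h4 : Fintype.card A ≤ (Finset.univ.filter fun j => a j ∈ X).card := by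
      rw [← Fintype.card_subtype]
      refine Fintype.card_le_of_injective
        (fun x : A => (⟨e.symm ⟨x.1, hAB x.2⟩, ?_⟩ : {j : Fin p // a j ∈ X})) ?_
      · have : a (e.symm ⟨x.1, hAB x.2⟩) = x.1 := by
          simp [a]
        rw [this]
        exact hAX x.2
      · intro x y h
        have h' : e.symm ⟨x.1, hAB x.2⟩ = e.symm ⟨y.1, hAB y.2⟩ := congrArg Subtype.val h
        have h'' := e.symm.injective h'
        have h3 : x.1 = y.1 := congrArg (fun b : B => (b : Ix n p)) h''
        exact Subtype.ext h3
    refine le_trans h4 ?_
    exact Finset.le_sup (f := fun a : Fin p → Ix n p =>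
      (Finset.univ.filter fun j => a j ∈ X).card) (by simpa using hωa)

end Pool.Agent.Helper64.IG.PkRK1
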