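import Pool.Agent.Helper64.IG.Goals

/-!
# MP_d01c92_ag, packet GA: existence of a good tree tensor network with a given skeleton
-/

open scoped BigOperators

universe u v

namespace Pool.Agent.Helper64.IG.PkGA

open Module

variable {K : Type u} [Field K]

theorem leaves_map {X Y : Type*} (g : X → Y) (t : Tr X) : (t.map g).leaves = t.leaves := by
  induction t with
  | leaf k x => rfl
  | node k x a b iha ihb => simp only [Tr.map, Tr.leaves, iha, ihb]

theorem lab_map {X Y : Type*} (g : X → Y) (t : Tr X) : (t.map g).lab = t.lab := by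
  cases t <;> rfl

theorem labLe_map {X Y : Type*} (g : X → Y) (w : ℕ) (t : Tr X) :
    (t.map g).LabLe w ↔ t.LabLe w := by
  induction t with
  | leaf k x => exact Iff.rfl
  | node k x a b iha ihb => simp only [Tr.map, Tr.LabLe, iha, ihb]

theorem subO_labLe {X : Type*} {w : ℕ} {t s : Tr X} {i j : ℕ} (h : Tr.SubO t i s j) :
    t.LabLe w → s.LabLe w := by
  induction h with
  | refl t i => exact id
  | left k x b _ ih => intro h; exact ih h.2.1
  | right k x a _ ih => intro h; exact ih h.2.2

theorem subO_trans {X : Type*} {t s u : Tr X} {i j l : ℕ} (h : Tr.SubO t i s j) :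
    Tr.SubO s j u l → Tr.SubO t i u l := by
  induction h with
  | refl t i => exact id
  | left k x b _ ih => intro h; exact Tr.SubO.left k x b (ih h)
  | right k x a _ ih => intro h; exact Tr.SubO.right k x a (ih h)

theorem lab_le_of_labLe {X : Type*} {w : ℕ} {t : Tr X} (h : t.LabLe w) : t.lab ≤ w := by
  cases t with
  | leaf k x => exact h
  | node k x a b => exact h.1

theorem le_lab_of_Dn {X : Type*} {k : ℕ} {t f : Tr X} (h : Tr.Dn k t f) : k ≤ t.lab := by
  cases h with
  | here f h => exact h.symm.le
  | left l x b h _ => exact h.le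
  | right l x a h _ => exact h.le

/-- span of a family which vanishes from `r` on -/
theorem span_range_eq {D r : ℕ} (B : Fin D → List Bool → K)
    (h0 : ∀ a : Fin D, r ≤ (a : ℕ) → B a = 0) :
    Submodule.span K (Set.range fun a : {a : Fin D // (a : ℕ) < r} => B a) =
      Submodule.span K (Set.range B) := by
  apply le_antisymm
  · apply Submodule.span_mono
    rintro _ ⟨a, rfl⟩
    exact ⟨a, rfl⟩
  · rw [Submodule.span_le]
    rintro _ ⟨a, rfl⟩
    by_cases h : (a : ℕ) < r
    · exact Submodule.subset_span ⟨⟨a, h⟩, rfl⟩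
    · rw [h0 a (not_lt.mp h)]
      exact Submodule.zero_mem _

theorem card_sub {D r : ℕ} (h : r ≤ D) : Fintype.card {a : Fin D // (a : ℕ) < r} = r := by
  have e : {a : Fin D // (a : ℕ) < r} ≃ Fin r :=
    { toFun := fun a => ⟨a.1.1, a.2⟩
      invFun := fun b => ⟨⟨b.1, lt_of_lt_of_le b.2 h⟩, b.2⟩
      left_inv := fun a => rfl
      right_inv := fun b => rfl }
  rw [Fintype.card_congr e, Fintype.card_fin]

/-- A family with `r` possibly nonzero members spanning a space of dimension `r`. -/
theorem bf_of_span {D r : ℕ} (hr : r ≤ D) (B : Fin D → List Bool → K)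
    (U : Submodule K (List Bool → K)) (h0 : ∀ a : Fin D, r ≤ (a : ℕ) → B a = 0)
    (hs : Submodule.span K (Set.range B) = U) (hU : finrank K U = r) : BF B U r := by
  refine ⟨h0, ?_, hs⟩
  rw [linearIndependent_iff_card_eq_finrank_span]
  rw [Set.finrank, span_range_eq B h0, hs, hU, card_sub hr]

/-- Existence of a basis family. -/
theorem exists_bf {D r : ℕ} (hr : r ≤ D) (hr0 : 0 < r) (U : Submodule K (List Bool → K))
    (hU : finrank K U = r) : ∃ B : Fin D → List Bool → K, BF B U r := by
  have : Module.Finite K U := Module.finite_of_finrank_pos (by rw [hU]; exact hr0)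
  let b : Basis (Fin r) K U := Module.finBasisOfFinrankEq K U hU
  refine ⟨fun a => if h : (a : ℕ) < r then (b ⟨a, h⟩ : List Bool → K) else 0, ?_⟩
  apply bf_of_span hr
  · intro a ha
    simp only [not_lt.mpr ha, dite_false]
  · apply le_antisymm
    · rw [Submodule.span_le]
      rintro _ ⟨a, rfl⟩
      by_cases h : (a : ℕ) < r
      · simp only [h, dite_true]
        exact (b ⟨a, h⟩).2
      · simp only [h, dite_false]
        exact U.zero_mem
    · intro x hx
      have h1 : (⟨x, hx⟩ : U) ∈ Submodule.span K (Set.range b) := by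
        rw [b.span_eq]; exact Submodule.mem_top
      have h2 : x ∈ (Submodule.span K (Set.range b)).map U.subtype := ⟨⟨x, hx⟩, h1, rfl⟩
      rw [Submodule.map_span] at h2
      refine Submodule.span_mono ?_ h2
      rintro _ ⟨_, ⟨c, rfl⟩, rfl⟩
      refine ⟨⟨c, lt_of_lt_of_le c.2 hr⟩, ?_⟩
      simp
  · exact hU

/-- Environments: for some labels, a window and a basis family. -/
abbrev Env (K : Type u) (w : ℕ) : Type u := ℕ → Option (ℕ × ℕ × (Fin (2 ^ w) → List Bool → K))

/-- All families of the environment are basis families. -/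
def EnvOK {w : ℕ} (z : List Bool → K) (m : ℕ) (env : Env K w) : Prop :=
  ∀ k ik nk Bk, env k = some (ik, nk, Bk) → BF Bk (Usp z m ik nk) (2 ^ k)

/-- The windows are linked. -/
def Lnk {w : ℕ} (z : List Bool → K) (m : ℕ) (env : Env K w) (s : Tr Unit) (i : ℕ) : Prop :=
  ∀ k, k ≤ s.lab → ∀ ik nk Bk, env k = some (ik, nk, Bk) → ∀ f j, Tr.DnO k s i f j →
    LinkOK z m ik nk j f.leaves

/-- `B` is the restriction of the family of the environment. -/
def Cons {w : ℕ} (env : Env K w) (s : Tr Unit) (B : Fin (2 ^ w) → List Bool → K) : Prop :=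
  ∀ ik nk Bk, env s.lab = some (ik, nk, Bk) → ∃ sl sr : List Bool,
    sl.length + s.leaves + sr.length = nk ∧
    ∀ α (bs : List Bool), bs.length = s.leaves → Bk α (sl ++ bs ++ sr) = B α bs

/-- Choice of the basis family of a child. -/
theorem child_basis {w : ℕ} (z : List Bool → K) (m : ℕ) (env : Env K w) (c : Tr Unit) (i : ℕ)
    (hw : c.lab ≤ w) (hfin : finrank K (Usp z m i c.leaves) = 2 ^ c.lab)
    (henv : EnvOK z m env) (hl : Lnk z m env c i) :
    ∃ B : Fin (2 ^ w) → List Bool → K, BF B (Usp z m i c.leaves) (2 ^ c.lab) ∧ Cons env c B := by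
  have hr : 2 ^ c.lab ≤ 2 ^ w := Nat.pow_le_pow_right (by norm_num) hw
  rcases h : env c.lab with _ | ⟨ik, nk, Bk⟩
  · obtain ⟨B, hB⟩ := exists_bf hr (Nat.two_pow_pos _) _ hfin
    refine ⟨B, hB, ?_⟩
    intro ik nk Bk h'
    rw [h] at h'
    exact absurd h' (by simp)
  · obtain ⟨sl, sr, h1, h2, h3⟩ := hl c.lab le_rfl ik nk Bk h c i (Tr.DnO.here c i rfl)
    have hBk := henv _ _ _ _ h
    refine ⟨fun α => slc c.leaves sl sr (Bk α), ?_, ?_⟩
    · apply bf_of_span hr
      · intro a ha
        rw [hBk.1 a ha, map_zero]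
      · rw [← h3, ← hBk.2.2, Submodule.map_span]
        congr 1
        rw [← Set.range_comp]
        rfl
      · exact hfin
    · intro ik' nk' Bk' h'
      rw [h] at h'
      obtain ⟨rfl, rfl, rfl⟩ : ik = ik' ∧ nk = nk' ∧ Bk = Bk' := by
        simpa using h'
      refine ⟨sl, sr, h2, ?_⟩
      intro α bs hbs
      simp [slc, hbs]

/-- The environment below a node. -/
noncomputable def nenv {w : ℕ} (env : Env K w) (k0 i n : ℕ) (B : Fin (2 ^ w) → List Bool → K) :
    Env K w :=
  fun k => if k < k0 then env k else if k = k0 then some (i, n, B) else none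

theorem nenv_lt {w : ℕ} (env : Env K w) {k0 i n : ℕ} (B : Fin (2 ^ w) → List Bool → K) {k : ℕ}
    (h : k < k0) : nenv env k0 i n B k = env k := by
  simp [nenv, h]

theorem nenv_self {w : ℕ} (env : Env K w) (k0 i n : ℕ) (B : Fin (2 ^ w) → List Bool → K) :
    nenv env k0 i n B k0 = some (i, n, B) := by
  simp [nenv]

theorem nenv_gt {w : ℕ} (env : Env K w) {k0 i n : ℕ} (B : Fin (2 ^ w) → List Bool → K) {k : ℕ}
    (h : k0 < k) : nenv env k0 i n B k = none := by
  simp [nenv, not_lt.mpr h.le, h.ne']

theorem nenv_ok {w : ℕ} (z : List Bool → K) (m : ℕ) (env : Env K w) (k0 i n : ℕ)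
    (B : Fin (2 ^ w) → List Bool → K) (henv : EnvOK z m env) (hB : BF B (Usp z m i n) (2 ^ k0)) :
    EnvOK z m (nenv env k0 i n B) := by
  intro k ik nk Bk h
  rcases lt_trichotomy k k0 with hk | hk | hk
  · rw [nenv_lt env B hk] at h
    exact henv _ _ _ _ h
  · subst hk
    rw [nenv_self] at h
    obtain ⟨rfl, rfl, rfl⟩ : i = ik ∧ n = nk ∧ B = Bk := by simpa using h
    exact hB
  · rw [nenv_gt env B hk] at h
    exact absurd h (by simp)

theorem claim (tf : G_TF.{u}) (w : ℕ) (z : List Bool → K) (σ : Tr Unit) (m : ℕ)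
    (hlab : σ.LabLe w)
    (hfin : ∀ s i, Tr.SubO σ 0 s i → finrank K (Usp z m i s.leaves) = 2 ^ s.lab)
    (hlink : ∀ s i f j, Tr.SubO σ 0 s i → Tr.StepO s i f j →
      LinkOK z m i s.leaves j f.leaves) :
    ∀ (s : Tr Unit) (i : ℕ), Tr.SubO σ 0 s i → ∀ (env : Env K w), EnvOK z m env →
      ∀ (B : Fin (2 ^ w) → List Bool → K), BF B (Usp z m i s.leaves) (2 ^ s.lab) →
      Lnk z m env s i → Cons env s B →
      ∃ t : Tr (Var w → K), t.map (fun _ => ()) = s ∧
        (∀ α (bs : List Bool), bs.length = s.leaves → ev w t α bs = B α bs) ∧ Good t ∧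
        ∀ k, k ≤ s.lab → ∀ ik nk Bk, env k = some (ik, nk, Bk) → ∀ f, Tr.Dn k t f →
          ∃ sl sr : List Bool, sl.length + f.leaves + sr.length = nk ∧
            ∀ α (bs : List Bool), bs.length = f.leaves →
              Bk α (sl ++ bs ++ sr) = ev w f α bs := by
  intro s
  induction s with
  | leaf k0 x0 =>
    intro i hsub env henv B hB hl hc
    have hev : ∀ α (bs : List Bool), bs.length = 1 →
        ev w (Tr.leaf k0 (fun v : Var w => B v.1 [v.2.2.2])) α bs = B α bs := by
      intro α bs hbs
      obtain ⟨e, rfl⟩ := List.length_eq_one_iff.mp hbs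
      rfl
    refine ⟨Tr.leaf k0 (fun v : Var w => B v.1 [v.2.2.2]), rfl, hev, ?_, ?_⟩
    · intro e f he hf
      cases he
      cases hf
    · intro k hk ik nk Bk hkk f hf
      cases hf with
      | here f h =>
        have h' : k0 = k := h
        subst h'
        obtain ⟨sl, sr, h1, h2⟩ := hc ik nk Bk hkk
        refine ⟨sl, sr, h1, ?_⟩
        intro α bs hbs
        rw [h2 α bs hbs]
        exact (hev α bs hbs).symm
  | node k0 x0 s1 s2 ih1 ih2 =>
    intro i hsub env henv B hB hl hc
    have hs1 : Tr.SubO σ 0 s1 i :=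
      subO_trans hsub (Tr.SubO.left k0 x0 s2 (Tr.SubO.refl s1 i))
    have hs2 : Tr.SubO σ 0 s2 (i + s1.leaves) :=
      subO_trans hsub (Tr.SubO.right k0 x0 s1 (Tr.SubO.refl s2 _))
    set env' : Env K w := nenv env k0 i (s1.leaves + s2.leaves) B with henv'
    have hok : EnvOK z m env' := nenv_ok z m env k0 i _ B henv hB
    have hl1 : Lnk z m env' s1 i := by
      intro k hk ik nk Bk h f j hd
      rcases lt_trichotomy k k0 with hkk | hkk | hkk
      · rw [henv', nenv_lt env B hkk] at h
        exact hl k hkk.le ik nk Bk h f j (Tr.DnO.left k0 x0 s2 hkk hd)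
      · subst hkk
        rw [henv', nenv_self] at h
        obtain ⟨rfl, rfl, rfl⟩ : i = ik ∧ s1.leaves + s2.leaves = nk ∧ B = Bk := by simpa using h
        exact hlink _ _ f j hsub (Tr.StepO.left k x0 s2 hd)
      · rw [henv', nenv_gt env B hkk] at h
        exact absurd h (by simp)
    have hl2 : Lnk z m env' s2 (i + s1.leaves) := by
      intro k hk ik nk Bk h f j hd
      rcases lt_trichotomy k k0 with hkk | hkk | hkk
      · rw [henv', nenv_lt env B hkk] at h
        exact hl k hkk.le ik nk Bk h f j (Tr.DnO.right k0 x0 s1 hkk hd)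
      · subst hkk
        rw [henv', nenv_self] at h
        obtain ⟨rfl, rfl, rfl⟩ : i = ik ∧ s1.leaves + s2.leaves = nk ∧ B = Bk := by simpa using h
        exact hlink _ _ f j hsub (Tr.StepO.right k x0 s1 hd)
      · rw [henv', nenv_gt env B hkk] at h
        exact absurd h (by simp)
    obtain ⟨B1, hB1, hc1⟩ := child_basis z m env' s1 i
      (lab_le_of_labLe (subO_labLe hs1 hlab)) (hfin _ _ hs1) hok hl1
    obtain ⟨B2, hB2, hc2⟩ := child_basis z m env' s2 (i + s1.leaves)
      (lab_le_of_labLe (subO_labLe hs2 hlab)) (hfin _ _ hs2) hok hl2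
    obtain ⟨t1, ht1, hev1, hg1, hp1⟩ := ih1 i hs1 env' hok B1 hB1 hl1 hc1
    obtain ⟨t2, ht2, hev2, hg2, hp2⟩ := ih2 _ hs2 env' hok B2 hB2 hl2 hc2
    have hmem : ∀ α, B α ∈ Usp z m i (s1.leaves + s2.leaves) := by
      intro α
      have h := hB.2.2
      have h' : B α ∈ Submodule.span K (Set.range B) := Submodule.subset_span ⟨α, rfl⟩
      rw [h] at h'
      exact h'
    have hx : ∀ α, ∃ x : Fin (2 ^ w) → Fin (2 ^ w) → K, ∀ bs : List Bool,
        bs.length = s1.leaves + s2.leaves →
        B α bs = ∑ β, ∑ γ, x β γ * B1 β (bs.take s1.leaves) * B2 γ (bs.drop s1.leaves) :=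
      fun α => tf K (2 ^ w) z m i s1.leaves s2.leaves (2 ^ s1.lab) (2 ^ s2.lab) B1 B2 hB1 hB2
        (B α) (hmem α)
    choose x hx using hx
    have hl1' : t1.leaves = s1.leaves := by rw [← ht1, leaves_map]
    have hl2' : t2.leaves = s2.leaves := by rw [← ht2, leaves_map]
    have hb1' : t1.lab = s1.lab := by rw [← ht1, lab_map]
    have hb2' : t2.lab = s2.lab := by rw [← ht2, lab_map]
    have hev : ∀ α (bs : List Bool), bs.length = s1.leaves + s2.leaves →
        ev w (Tr.node k0 (fun v : Var w => x v.1 v.2.1 v.2.2.1) t1 t2) α bs = B α bs := by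
      intro α bs hbs
      rw [hx α bs hbs]
      simp only [ev]
      refine Finset.sum_congr rfl fun β _ => Finset.sum_congr rfl fun γ _ => ?_
      rw [hl1', hev1 β (bs.take s1.leaves) (by rw [List.length_take, hbs]; omega),
        hev2 γ (bs.drop s1.leaves) (by rw [List.length_drop, hbs]; omega)]
    refine ⟨Tr.node k0 (fun v : Var w => x v.1 v.2.1 v.2.2.1) t1 t2, ?_, hev, ?_, ?_⟩
    · simp only [Tr.map, ht1, ht2]
    · intro e f he hf
      cases he with
      | refl =>
        have key : ∀ f, (Tr.Dn k0 t1 f ∨ Tr.Dn k0 t2 f) → ∃ sl sr : List Bool,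
            sl.length + f.leaves + sr.length = s1.leaves + s2.leaves ∧
            ∀ α (bs : List Bool), bs.length = f.leaves →
              B α (sl ++ bs ++ sr) = ev w f α bs := by
          intro f hf
          rcases hf with hf | hf
          · exact hp1 k0 (by rw [← hb1']; exact le_lab_of_Dn hf) i _ B
              (nenv_self env k0 i _ B) f hf
          · exact hp2 k0 (by rw [← hb2']; exact le_lab_of_Dn hf) i _ B
              (nenv_self env k0 i _ B) f hf
        have key2 : ∃ sl sr : List Bool,
            sl.length + f.leaves + sr.length = s1.leaves + s2.leaves ∧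
            ∀ α (bs : List Bool), bs.length = f.leaves →
              B α (sl ++ bs ++ sr) = ev w f α bs := by
          cases hf with
          | left k x b h => exact key f (Or.inl h)
          | right k x a h => exact key f (Or.inr h)
        obtain ⟨sl, sr, h1, h2⟩ := key2
        refine ⟨sl, sr, ?_, ?_⟩
        · simp only [Tr.leaves, hl1', hl2']
          exact h1
        · intro α bs hbs
          rw [hev α (sl ++ bs ++ sr) (by simp only [List.length_append, hbs]; exact h1)]
          exact h2 α bs hbs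
      | left k x b h => exact hg1 e f h hf
      | right k x a h => exact hg2 e f h hf
    · intro k hk ik nk Bk hkk f hf
      have hk' : k ≤ k0 := hk
      cases hf with
      | here f h =>
        have h' : k0 = k := h
        subst h'
        obtain ⟨sl, sr, h1, h2⟩ := hc ik nk Bk hkk
        refine ⟨sl, sr, ?_, ?_⟩
        · simp only [Tr.leaves, hl1', hl2']
          exact h1
        · intro α bs hbs
          have hbs' : bs.length = s1.leaves + s2.leaves := by
            rw [hbs]; simp only [Tr.leaves, hl1', hl2']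
          rw [h2 α bs hbs']
          exact (hev α bs hbs').symm
      | left l x b h hd =>
        exact hp1 k (by rw [← hb1']; exact le_lab_of_Dn hd) ik nk Bk
          (by rw [henv', nenv_lt env B h]; exact hkk) f hd
      | right l x a h hd =>
        exact hp2 k (by rw [← hb2']; exact le_lab_of_Dn hd) ik nk Bk
          (by rw [henv', nenv_lt env B h]; exact hkk) f hd

theorem usp_full (z : List Bool → K) (m : ℕ) (hz : ∀ b, b.length ≠ m → z b = 0) :
    Usp z m 0 m = Submodule.span K {z} := by
  unfold Usp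
  congr 1
  ext f
  simp only [Set.mem_ofPred_eq, Set.mem_singleton_iff]
  constructor
  · rintro ⟨xs, zs, h1, h2, rfl⟩
    have hx : xs = [] := List.length_eq_zero_iff.mp h1
    have hz' : zs = [] := List.length_eq_zero_iff.mp (by omega)
    subst hx
    subst hz'
    funext bs
    by_cases h : bs.length = m
    · simp [h]
    · simp [h, hz bs h]
  · rintro rfl
    refine ⟨[], [], rfl, by simp, ?_⟩
    funext bs
    by_cases h : bs.length = m
    · simp [h]
    · simp [h, hz bs h]

theorem ga (tf : G_TF.{u}) : G_GA.{u} := by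
  intro K _ w z σ hlab h0 hz hfin hlink
  have hf0 : finrank K (Usp z σ.leaves 0 σ.leaves) = 1 := by
    have h := hfin σ 0 (Tr.SubO.refl σ 0)
    rwa [h0, pow_zero] at h
  have hz0 : z ≠ 0 := by
    intro h
    have h1 : Submodule.span K {z} = ⊥ := by
      rw [h]; exact Submodule.span_zero_singleton K
    rw [usp_full z σ.leaves hz, h1, finrank_bot] at hf0
    exact absurd hf0 (by norm_num)
  let B : Fin (2 ^ w) → List Bool → K := fun α => if α = zi w then z else 0
  have hB : BF B (Usp z σ.leaves 0 σ.leaves) (2 ^ σ.lab) := by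
    rw [h0, pow_zero]
    apply bf_of_span (Nat.one_le_two_pow)
    · intro a ha
      have hne : a ≠ zi w := by
        intro h
        rw [h] at ha
        exact absurd ha (by simp [zi])
      exact if_neg hne
    · rw [usp_full z σ.leaves hz]
      apply le_antisymm
      · rw [Submodule.span_le]
        rintro _ ⟨a, rfl⟩
        by_cases h : a = zi w
        · simp only [B, h, if_true]
          exact Submodule.subset_span rfl
        · simp only [B, h, if_false]
          exact Submodule.zero_mem _
      · rw [Submodule.span_le]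
        rintro _ rfl
        exact Submodule.subset_span ⟨zi w, by simp [B]⟩
    · exact hf0
  obtain ⟨t, h1, h2, h3, -⟩ := claim tf w z σ σ.leaves hlab hfin hlink σ 0 (Tr.SubO.refl σ 0)
    (fun _ => none) (fun k ik nk Bk h => absurd h (by simp)) B hB
    (fun k _ ik nk Bk h => absurd h (by simp)) (fun ik nk Bk h => absurd h (by simp))
  refine ⟨t, ?_, ?_, h3, ?_⟩
  · rw [← labLe_map (fun _ => ()) w t, h1]
    exact hlab
  · rw [← h1, leaves_map]
  · intro b hb
    rw [h2 (zi w) b hb]
    simp [B]

end Pool.Agent.Helper64.IG.PkGA
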